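import Pool.Agent.Helper6.MONO.Stmts

set_option autoImplicit false

namespace Pool.Agent.Helper6.MONO

/-- The conclusion for one block type. -/
def tgcC (ct : CT) (v : Bool) (M : ℕ) (ε : Bool) (m : ℕ) : Prop :=
  ∃ t ∈ tags ct v, t.eps = ε ∧ t.even = ev2 m ∧
    (t.vout = true → vnext M v ε m = true) ∧ rtOK t.rt (Kp M) (Rb M m) ∧ tailOK t (Kp M) (Rb M m) ∧
    (t.rt = RT.tl → t.m0 ≠ RT.tl ∧ t.m0 ≠ RT.r2)

theorem tgc_fin {ct : CT} {v : Bool} {M : ℕ} {ε : Bool} {m : ℕ} (t : Tag) (h0 : t ∈ tags ct v)
    (h1 : t.eps = ε) (h2 : t.even = ev2 m) (h3 : t.vout = true → vnext M v ε m = true)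
    (h4 : rtOK t.rt (Kp M) (Rb M m)) (h5 : t.rt ≠ RT.tl) : tgcC ct v M ε m :=
  ⟨t, h0, h1, h2, h3, h4, fun h => absurd h h5, fun h => absurd h h5⟩

theorem tgc_tl {ct : CT} {v : Bool} {M : ℕ} {ε : Bool} {m : ℕ} (t : Tag) (h0 : t ∈ tags ct v)
    (h1 : t.eps = ε) (h2 : t.even = ev2 m) (h3 : t.vout = false) (h4 : t.rt = RT.tl)
    (Ru : ℝ) (h5 : rtOK t.m0 (Kp M) Ru) (h6 : Rb M m ≤ Ru)
    (h7 : if ε then 0 ≤ Rb M m else 1 - 2 * (1 * (1 / Kp M)) ≤ Rb M m)
    (h8 : t.m0 ≠ RT.tl ∧ t.m0 ≠ RT.r2) : tgcC ct v M ε m := by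
  refine ⟨t, h0, h1, h2, ?_, ?_, fun _ => ⟨Ru, h5, h6, ?_⟩, fun _ => h8⟩
  · rw [h3]
    exact fun h => absurd h (by decide)
  · rw [h4]
    trivial
  · rw [h1]
    exact h7

theorem tgc_ev {m : ℕ} (h : m % 2 = 0) : ev2 m = true := by
  rw [ev2, decide_eq_true_eq]
  exact h

theorem tgc_od {m : ℕ} (h : m % 2 = 1) : ev2 m = false := by
  rw [ev2, decide_eq_false_iff_not]
  omega

theorem tgc_main (hF : ST_RBF) (hT : ST_RBT) (ct : CT) (v : Bool) (M : ℕ)
    (h3 : ct = CT.c3 → M = 3) (h4 : ct = CT.c4 → M = 4) (h5 : ct = CT.c5 → M = 5)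
    (hg : ct = CT.g → 6 ≤ M) (ε : Bool) (m : ℕ) (ha : allowed M v ε m) : tgcC ct v M ε m := by
  cases ct with
  | c3 =>
    obtain rfl := h3 rfl
    obtain ⟨e2, e3, e4, _, _⟩ := hF 3 (by norm_num)
    rcases ha with ⟨rfl, rfl, h1, h2⟩ | ⟨rfl, rfl, h1, h2⟩ | ⟨rfl, rfl, h1, h2⟩
    · interval_cases m
      · exact tgc_fin (tg true true false RT.r2) (by simp [tags]) rfl rfl (by decide) e2 (by simp [tg])
      · exact tgc_fin (tg true false true RT.r3) (by simp [tags]) rfl rfl (by decide) e3 (by simp [tg])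
    · interval_cases m
      · exact tgc_fin (tg false false false RT.r3) (by simp [tags]) rfl rfl (by decide) e3 (by simp [tg])
      · exact tgc_fin (tg false true true RT.r4) (by simp [tags]) rfl rfl (by decide) e4 (by simp [tg])
    · interval_cases m
      · exact tgc_fin (tg false false true RT.r3) (by simp [tags]) rfl rfl (by decide) e3 (by simp [tg])
  | c4 =>
    obtain rfl := h4 rfl
    obtain ⟨e2, e3, e4, e5, _⟩ := hF 4 (by norm_num)
    have e5 := e5 le_rfl
    rcases ha with ⟨rfl, rfl, h1, h2⟩ | ⟨rfl, rfl, h1, h2⟩ | ⟨rfl, rfl, h1, h2⟩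
    · interval_cases m
      · exact tgc_fin (tg true true false RT.r2) (by simp [tags]) rfl rfl (by decide) e2 (by simp [tg])
      · exact tgc_fin (tg true false false RT.r3) (by simp [tags]) rfl rfl (by decide) e3 (by simp [tg])
      · exact tgc_fin (tg true true true RT.r4) (by simp [tags]) rfl rfl (by decide) e4 (by simp [tg])
    · interval_cases m
      · exact tgc_fin (tg false false false RT.r3) (by simp [tags]) rfl rfl (by decide) e3 (by simp [tg])
      · exact tgc_fin (tg false true false RT.r4) (by simp [tags]) rfl rfl (by decide) e4 (by simp [tg])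
      · exact tgc_fin (tg false false true RT.r5) (by simp [tags]) rfl rfl (by decide) e5 (by simp [tg])
    · interval_cases m
      · exact tgc_fin (tg false false false RT.r3) (by simp [tags]) rfl rfl (by decide) e3 (by simp [tg])
      · exact tgc_fin (tg false true true RT.r4) (by simp [tags]) rfl rfl (by decide) e4 (by simp [tg])
  | c5 =>
    obtain rfl := h5 rfl
    obtain ⟨e2, e3, e4, e5, e6⟩ := hF 5 (by norm_num)
    have e5 := e5 (by norm_num)
    have e6 := e6 (by norm_num)
    rcases ha with ⟨rfl, rfl, h1, h2⟩ | ⟨rfl, rfl, h1, h2⟩ | ⟨rfl, rfl, h1, h2⟩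
    · interval_cases m
      · exact tgc_fin (tg true true false RT.r2) (by simp [tags]) rfl rfl (by decide) e2 (by simp [tg])
      · exact tgc_fin (tg true false false RT.r3) (by simp [tags]) rfl rfl (by decide) e3 (by simp [tg])
      · exact tgc_fin (tg true true false RT.r4) (by simp [tags]) rfl rfl (by decide) e4 (by simp [tg])
      · exact tgc_fin (tg true false true RT.r5) (by simp [tags]) rfl rfl (by decide) e5 (by simp [tg])
    · interval_cases m
      · exact tgc_fin (tg false false false RT.r3) (by simp [tags]) rfl rfl (by decide) e3 (by simp [tg])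
      · exact tgc_fin (tg false true false RT.r4) (by simp [tags]) rfl rfl (by decide) e4 (by simp [tg])
      · exact tgc_fin (tg false false false RT.r5) (by simp [tags]) rfl rfl (by decide) e5 (by simp [tg])
      · exact tgc_fin (tg false true true RT.r6) (by simp [tags]) rfl rfl (by decide) e6 (by simp [tg])
    · interval_cases m
      · exact tgc_fin (tg false false false RT.r3) (by simp [tags]) rfl rfl (by decide) e3 (by simp [tg])
      · exact tgc_fin (tg false true false RT.r4) (by simp [tags]) rfl rfl (by decide) e4 (by simp [tg])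
      · exact tgc_fin (tg false false true RT.r5) (by simp [tags]) rfl rfl (by decide) e5 (by simp [tg])
  | g =>
    have hM := hg rfl
    obtain ⟨e2, e3, e4, e5, e6⟩ := hF M (by omega)
    have e5 := e5 (by omega)
    have e6 := e6 (by omega)
    rcases ha with ⟨rfl, rfl, h1, h2⟩ | ⟨rfl, rfl, h1, h2⟩ | ⟨rfl, rfl, h1, h2⟩
    · by_cases m2 : m = 2
      · subst m2
        exact tgc_fin (tg true true false RT.r2) (by simp [tags]) rfl rfl
          (fun h => absurd h (by simp [tg])) e2 (by simp [tg])
      by_cases m3 : m = 3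
      · subst m3
        exact tgc_fin (tg true false false RT.r3) (by simp [tags]) rfl rfl
          (fun h => absurd h (by simp [tg])) e3 (by simp [tg])
      rcases Nat.mod_two_eq_zero_or_one m with hm | hm
      · obtain ⟨t1, t2⟩ := hT M 4 m (by omega) (by omega) (by omega)
        exact tgc_tl (Tag.mk true true false RT.tl RT.r4) (by simp [tags]) rfl (tgc_ev hm).symm rfl rfl
          (Rb M 4) e4 (t1 (by omega)).1 (t2 h2) (by simp)
      · obtain ⟨t1, t2⟩ := hT M 5 m (by omega) (by omega) (by omega)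
        exact tgc_tl (Tag.mk true false false RT.tl RT.r5) (by simp [tags]) rfl (tgc_od hm).symm rfl rfl
          (Rb M 5) e5 (t1 (by omega)).1 (t2 h2) (by simp)
    · by_cases m3 : m = 3
      · subst m3
        exact tgc_fin (tg false false false RT.r3) (by simp [tags]) rfl rfl
          (fun h => absurd h (by simp [tg])) e3 (by simp [tg])
      by_cases m4 : m = 4
      · subst m4
        exact tgc_fin (tg false true false RT.r4) (by simp [tags]) rfl rfl
          (fun h => absurd h (by simp [tg])) e4 (by simp [tg])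
      rcases Nat.mod_two_eq_zero_or_one m with hm | hm
      · obtain ⟨t1, _⟩ := hT M 6 m (by omega) (by omega) (by omega)
        exact tgc_tl (Tag.mk false true false RT.tl RT.r6) (by simp [tags]) rfl (tgc_ev hm).symm rfl rfl
          (Rb M 6) e6 (t1 (by omega)).1 (t1 (by omega)).2 (by simp)
      · obtain ⟨t1, _⟩ := hT M 5 m (by omega) (by omega) (by omega)
        exact tgc_tl (Tag.mk false false false RT.tl RT.r5) (by simp [tags]) rfl (tgc_od hm).symm rfl rfl
          (Rb M 5) e5 (t1 (by omega)).1 (t1 (by omega)).2 (by simp)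
    · by_cases m3 : m = 3
      · subst m3
        exact tgc_fin (tg false false false RT.r3) (by simp [tags]) rfl rfl
          (fun h => absurd h (by simp [tg])) e3 (by simp [tg])
      by_cases m4 : m = 4
      · subst m4
        exact tgc_fin (tg false true false RT.r4) (by simp [tags]) rfl rfl
          (fun h => absurd h (by simp [tg])) e4 (by simp [tg])
      rcases Nat.mod_two_eq_zero_or_one m with hm | hm
      · obtain ⟨t1, _⟩ := hT M 6 m (by omega) (by omega) (by omega)
        exact tgc_tl (Tag.mk false true false RT.tl RT.r6) (by simp [tags]) rfl (tgc_ev hm).symm rfl rfl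
          (Rb M 6) e6 (t1 (by omega)).1 (t1 (by omega)).2 (by simp)
      · obtain ⟨t1, _⟩ := hT M 5 m (by omega) (by omega) (by omega)
        exact tgc_tl (Tag.mk false false false RT.tl RT.r5) (by simp [tags]) rfl (tgc_od hm).symm rfl rfl
          (Rb M 5) e5 (t1 (by omega)).1 (t1 (by omega)).2 (by simp)

theorem st_TGC : ST_TGC := fun hF hT ct v M h3 h4 h5 hg ε m ha =>
  tgc_main hF hT ct v M h3 h4 h5 hg ε m ha

end Pool.Agent.Helper6.MONO
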