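import Pool.Agent.Helper6.MONO.Stmts

set_option autoImplicit false

namespace Pool.Agent.Helper6.MONO

theorem tgs_le {num den R : I} {n d : ℝ} (h : leRI num den R = true) (hn : mem n num)
    (hd : mem d den) : mem (1 - 2 * (n * (1 / d))) R := by
  obtain ⟨h1, h2⟩ := band_eq h
  exact mem_of_le (mem_sub mem_one (mem_dbl (mem_mul hn (mem_inv hd h1).1))) h2

theorem tgs_conv {X : I} {x y z : ℝ} (hx : mem x X) (hy : mem y X) (h1 : x ≤ z) (h2 : z ≤ y) :
    mem z X := by
  cases X with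
  | pos l h =>
    rw [mem_pos_iff] at hx hy ⊢
    constructor <;> linarith [hx.1, hx.2, hy.1, hy.2]
  | neg l h =>
    rw [mem_neg_iff] at hx hy ⊢
    constructor <;> linarith [hx.1, hx.2, hy.1, hy.2]
  | mix l h =>
    rw [mem_mix_iff] at hx hy ⊢
    constructor <;> linarith [hx.1, hx.2, hy.1, hy.2]

theorem tgs_up {m : RT} {kI R : I} {k Ru : ℝ} (h : upOK m kI R = true) (hk : mem k kI)
    (hm : m ≠ RT.tl ∧ m ≠ RT.r2) (hR : rtOK m k Ru) : mem Ru R := by
  cases m with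
  | r2 => exact absurd rfl hm.2
  | r3 =>
    have e : Ru = 1 - 2 * (1 * (1 / (k * (k + 1)))) := hR
    rw [e]
    exact tgs_le h mem_one (mem_mul hk (mem_add hk mem_one))
  | r4 =>
    have e : Ru = 1 - 2 * (1 * (1 / (k * k))) := hR
    rw [e]
    exact tgs_le h mem_one (mem_sqr hk)
  | r5 =>
    have e : Ru = 1 - 2 * ((1 + k) * (1 / (k * (k * k + k - 1)))) := hR
    rw [e]
    exact tgs_le h (mem_add mem_one hk) (mem_mul hk (mem_sub (mem_add (mem_sqr hk) hk) mem_one))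
  | r6 =>
    have e : Ru = 1 - 2 * (1 * (1 / (k * k - 1))) := hR
    rw [e]
    exact tgs_le h mem_one (mem_sub (mem_sqr hk) mem_one)
  | tl => exact absurd rfl hm.1

theorem tgs_tail {t : Tag} {kI RI : I} {k R : ℝ} (h : tlOK t kI RI = true) (ht : t.rt = RT.tl)
    (hk : mem k kI) (hm : t.m0 ≠ RT.tl ∧ t.m0 ≠ RT.r2) (hT : tailOK t k R) : mem R RI := by
  obtain ⟨Ru, h1, h2, h3⟩ := hT ht
  have h4 : band (upOK t.m0 kI RI) (lowOK t.eps kI RI) = true := by
    rw [tlOK, ht] at h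
    exact h
  obtain ⟨h5, h6⟩ := band_eq h4
  have h7 := tgs_up h5 hk hm h1
  cases he : t.eps with
  | true =>
    rw [he] at h3 h6
    have h8 : le zero RI = true := h6
    rw [if_pos rfl] at h3
    exact tgs_conv (mem_of_le mem_zero h8) h7 h3 h2
  | false =>
    rw [he] at h3 h6
    have h8 : leRI one kI RI = true := h6
    rw [if_neg (by decide)] at h3
    exact tgs_conv (tgs_le h8 mem_one hk) h7 h3 h2

theorem st_TGS : ST_TGS := by
  intro hTRS sa sb ck cd ce bt src t RI tr hchk hm s k hd he R z hs hk hhd hhe hz hrt htl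
  obtain ⟨h1, h2⟩ := band_eq hchk
  exact hTRS t src bt tr _ sa sb rfl h2 s k hd he R z ⟨hz.a, hz.b, hz.be, hs, hk, hhd, hhe⟩
    (fun h => tgs_tail h1 h hk (hm h) htl) hz.yr hz.ad hz.bd hz.bed hrt

end Pool.Agent.Helper6.MONO
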