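import Pool.Agent.Helper6.MONO.Stmts

set_option autoImplicit false

namespace Pool.Agent.Helper6.MONO

theorem yd_alg (s P b0 a b be yr ad bd bed yd : ℝ) (hk : 0 < 1 + s)
    (hne : 1 - 2 * P * (1 + s) * yr ≠ 0)
    (h : yd / (1 + s) = (ad / (1 + s) * a + a * (ad / (1 + s)))
      + (1 * (b * b) + s * (bd / (1 + s) * b + b * (bd / (1 + s))))
      + (P * 1 * (yr * yr + s * (be * be)) + P * (1 + s) *
          ((yd / (1 + s) * yr + yr * (yd / (1 + s))) +
            (1 * (be * be) + s * (bed / (1 + s) * be + be * (bed / (1 + s))))))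
      - (1 * (b0 * be) + s * (b0 * (bed / (1 + s))))) :
    yd = (2 * (a * ad + s * (b * bd)) + (1 + s) * (b * b)
      + P * (1 + s) *
        (yr * yr + s * (be * be) + 2 * s * (be * bed) + (1 + s) * (be * be))
      - b0 * ((1 + s) * be + s * bed)) / (1 - 2 * P * (1 + s) * yr) := by
  have h0 : (1 + s) ≠ 0 := ne_of_gt hk
  rw [eq_div_iff hne]
  have h1 : yd = (1 + s) * (yd / (1 + s)) := by field_simp
  have h2 : (1 + s) * (yd / (1 + s)) = (1 + s) * ((ad / (1 + s) * a + a * (ad / (1 + s)))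
      + (1 * (b * b) + s * (bd / (1 + s) * b + b * (bd / (1 + s))))
      + (P * 1 * (yr * yr + s * (be * be)) + P * (1 + s) *
          ((yd / (1 + s) * yr + yr * (yd / (1 + s))) +
            (1 * (be * be) + s * (bed / (1 + s) * be + be * (bed / (1 + s))))))
      - (1 * (b0 * be) + s * (b0 * (bed / (1 + s))))) := by rw [← h]
  rw [← h1] at h2
  have h3 : ∀ x : ℝ, (1 + s) * (x / (1 + s)) = x := fun x => by field_simp
  have e1 := h3 ad
  have e2 := h3 bd
  have e3 := h3 bed
  have e4 := h3 yd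
  generalize ad / (1 + s) = A at *
  generalize bd / (1 + s) = B at *
  generalize bed / (1 + s) = C at *
  generalize yd / (1 + s) = D at *
  rw [← e1, ← e2, ← e3]
  rw [← e4] at h2 ⊢
  linear_combination h2

theorem st_YD : ST_YD := by
  intro s0 s1 s k hd he Z z yd h01 h0s hs1 h0 hM hN hne
  have hs : 0 ≤ s := le_trans h0 h0s
  have hpos : 0 < 1 + s := by linarith
  obtain ⟨hv, da, db, dbe, dyr⟩ := hM
  have va : (Z s).a = z.a := by rw [hv]; rfl
  have vb : (Z s).b = z.b := by rw [hv]; rfl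
  have vbe : (Z s).be = z.be := by rw [hv]; rfl
  have vyr : (Z s).yr = z.yr := by rw [hv]; rfl
  have hmem : s ∈ Set.Icc s0 s1 := ⟨h0s, hs1⟩
  have did : HasDerivAt (fun t : ℝ => t) 1 s := hasDerivAt_id s
  have d1 : HasDerivAt (fun t : ℝ => 1 + t) 1 s := by
    simpa using did.const_add 1
  have dR := ((((da.mul da).add (did.mul (db.mul db))).add_const (SbP hd)).add
    ((d1.const_mul (SbP k * (gP k hd he * gP k hd he))).mul
      ((dyr.mul dyr).add (did.mul (dbe.mul dbe))))).sub (did.mul (dbe.const_mul (b0P k hd he)))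
  have hu : UniqueDiffWithinAt ℝ (Set.Icc s0 s1) s := uniqueDiffOn_Icc h01 s hmem
  have dL := dyr.hasDerivWithinAt (s := Set.Icc s0 s1)
  have dRw := dR.hasDerivWithinAt (s := Set.Icc s0 s1)
  have dL' := dRw.congr (f₁ := fun t => (Z t).yr) (fun t ht => by
    have := hN t ht.1 ht.2
    simp only [NR] at this
    simp only [Pi.add_apply, Pi.mul_apply, Pi.sub_apply]
    exact this) (by
    have := hN s h0s hs1
    simp only [NR] at this
    simp only [Pi.add_apply, Pi.mul_apply, Pi.sub_apply]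
    exact this)
  have key := hu.eq_deriv _ dL dL'
  simp only [Pi.add_apply, Pi.mul_apply, va, vb, vbe, vyr] at key
  unfold ydP
  refine yd_alg s (SbP k * (gP k hd he * gP k hd he)) (b0P k hd he) z.a z.b z.be z.yr
    z.ad z.bd z.bed yd hpos hne ?_
  linear_combination key

end Pool.Agent.Helper6.MONO
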